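import Pool.Agent.H93.HQ.Targets

/-!
# RC: the one-dimensional inequality for test functions
-/

set_option autoImplicit false

namespace Pool.Agent.H70.HQ

open MeasureTheory Set Filter Topology Pool.Agent.H80.HS Pool.Agent.H93.HQ
open scoped ContDiff ENNReal

theorem pf_RC (h1 : U_RF) (h2 : U_POL) : U_RC := by
  intro n hn p C hp hpQ hS χ hχ hχc hχs hχ0
  obtain ⟨hu, huc, hug⟩ := h1 n χ hχ hχc hχs
  have hS1 := hS _ hu huc
  have hD : (0 : ℝ) < 2 * n + 2 - p := by linarith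
  have hn0 : (0 : ℝ) ≤ n := Nat.cast_nonneg n
  have hq : (0 : ℝ) < (2 * (n : ℝ) + 2) * p / (2 * n + 2 - p) := by positivity
  have hp0 : (0 : ℝ) < p := by linarith
  set q : ℝ := (2 * (n : ℝ) + 2) * p / (2 * n + 2 - p) with hqd
  have hχi : Integrable χ := hχ.continuous.integrable_of_hasCompactSupport hχc
  have hF : ∀ r : ℝ, ENNReal.ofReal (∫ s in Ioi r, χ s) =
      ∫⁻ s in Ioi r, ENNReal.ofReal (χ s) := fun r =>
    ofReal_integral_eq_lintegral_ofReal hχi.integrableOn (ae_of_all _ hχ0)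
  have hFm : Measurable (fun r : ℝ => ∫⁻ s in Ioi r, ENNReal.ofReal (χ s)) := by
    apply Antitone.measurable
    intro r r' hr
    exact lintegral_mono_set (Ioi_subset_Ioi hr)
  have hu0 : ∀ x : H n, 0 ≤ ∫ s in Ioi (N x), χ s := fun x => integral_nonneg hχ0
  have hI1 : ENNReal.ofReal (∫ z : H n, ‖∫ s in Ioi (N z), χ s‖ ^ q) =
      ∫⁻ z : H n, (∫⁻ s in Ioi (N z), ENNReal.ofReal (χ s)) ^ q := by
    rw [ofReal_integral_eq_lintegral_ofReal]
    · refine lintegral_congr fun z => ?_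
      rw [Real.norm_of_nonneg (hu0 z), ← ENNReal.ofReal_rpow_of_nonneg (hu0 z) hq.le, hF]
    · have hc : Continuous (fun z : H n => ‖∫ s in Ioi (N z), χ s‖ ^ q) :=
        (hu.continuous.norm).rpow_const (fun _ => Or.inr hq.le)
      apply hc.integrable_of_hasCompactSupport
      refine HasCompactSupport.intro huc fun x hx => ?_
      rw [image_eq_zero_of_notMem_tsupport hx, norm_zero, Real.zero_rpow hq.ne']
    · exact ae_of_all _ fun z => Real.rpow_nonneg (norm_nonneg _) _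
  have hu1 : ContDiff ℝ 1 (fun x : H n => ∫ s in Ioi (N x), χ s) := hu.of_le (by simp)
  have hI2 : ENNReal.ofReal (∫ z : H n, grad (fun x : H n => ∫ s in Ioi (N x), χ s) z ^ p) =
      ∫⁻ z : H n, ENNReal.ofReal (al z ^ p) * ENNReal.ofReal (χ (N z) ^ p) := by
    rw [ofReal_integral_eq_lintegral_ofReal]
    · refine lintegral_congr fun z => ?_
      rw [hug z, abs_of_nonneg (hχ0 _), Real.mul_rpow (hχ0 _) (al_nonneg z), mul_comm,
        ENNReal.ofReal_mul (Real.rpow_nonneg (al_nonneg z) _)]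
    · have hc : Continuous
          (fun z : H n => grad (fun x : H n => ∫ s in Ioi (N x), χ s) z ^ p) :=
        (continuous_grad hu1).rpow_const (fun _ => Or.inr hp0.le)
      apply hc.integrable_of_hasCompactSupport
      refine HasCompactSupport.intro huc fun x hx => ?_
      rw [grad_eq_zero hx, Real.zero_rpow hp0.ne']
    · exact ae_of_all _ fun z => Real.rpow_nonneg (grad_nonneg _ _) _
  have hP1 := h2 n hn 0 le_rfl
    (fun r => (∫⁻ s in Ioi r, ENNReal.ofReal (χ s)) ^ q) (hFm.pow_const q)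
  simp only [Real.rpow_zero, ENNReal.ofReal_one, one_mul] at hP1
  have hP2 := h2 n hn p hp0.le (fun r => ENNReal.ofReal (χ r ^ p))
    (hχ.continuous.measurable.pow_const p).ennreal_ofReal
  have hR : ∫⁻ r in Ioi (0 : ℝ), ENNReal.ofReal (χ r ^ p * r ^ (2 * (n : ℝ) + 1)) =
      ∫⁻ r in Ioi (0 : ℝ), ENNReal.ofReal (χ r ^ p) * ENNReal.ofReal (r ^ (2 * (n : ℝ) + 1)) :=
    lintegral_congr fun r => ENNReal.ofReal_mul (Real.rpow_nonneg (hχ0 r) _)
  have hsg : 0 ≤ sg n p := (sg_pos hn hp0.le).le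
  have hJ : 0 ≤ ∫ z : H n, ‖∫ s in Ioi (N z), χ s‖ ^ q :=
    integral_nonneg fun z => Real.rpow_nonneg (norm_nonneg _) _
  have hG : 0 ≤ ∫ z : H n, grad (fun x : H n => ∫ s in Ioi (N x), χ s) z ^ p :=
    integral_nonneg fun z => Real.rpow_nonneg (grad_nonneg _ _) _
  rw [← hP1, ← hI1, ENNReal.ofReal_rpow_of_nonneg hJ (by positivity), hR,
    ENNReal.ofReal_mul' hsg, mul_assoc, ← hP2, ← hI2, ← ENNReal.ofReal_mul' hG]
  exact ENNReal.ofReal_le_ofReal hS1

end Pool.Agent.H70.HQ
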